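import Mathlib
import Pool.Agent.helper76.BQ.TDefs
import Pool.Agent.helper76.BQ.BDefs
import Pool.Agent.helper76.BQ.BGood

/-!
Part B of project bq, module B2e: determinant of the automorphy matrix.
-/

open Matrix Complex

namespace Pool.Agent.helper76.BQ

theorem B2e_nn_ne {D : ℝ} {z : Fin 2 → ℂ} (hz : z ∈ Ball D) : nn D z ≠ 0 := by
  intro h
  have h1 : (nn D z).re = 0 := by rw [h]; simp
  have hz' : ‖z 0‖ ^ 2 + ‖z 1‖ ^ 2 < D := hz
  have h2 : (z 0 ^ 2).re ≤ ‖z 0‖ ^ 2 := by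
    calc (z 0 ^ 2).re ≤ ‖z 0 ^ 2‖ := Complex.re_le_norm _
      _ = ‖z 0‖ ^ 2 := norm_pow _ _
  have h3 : (z 1 ^ 2).re ≤ ‖z 1‖ ^ 2 := by
    calc (z 1 ^ 2).re ≤ ‖z 1 ^ 2‖ := Complex.re_le_norm _
      _ = ‖z 1‖ ^ 2 := norm_pow _ _
  unfold nn at h1
  simp only [Complex.sub_re, Complex.ofReal_re] at h1
  linarith

theorem B2e_two_ne {D : ℝ} {gm : Matrix (Fin 3) (Fin 3) ℂ}
    (h : gmᴴ * HH (D : ℂ) * gm = HH (D : ℂ)) {z : Fin 2 → ℂ}
    (hz : z ∈ Ball D) : (gm *ᵥ lift z) 2 ≠ 0 := by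
  intro h0
  set y := gm *ᵥ lift z with hy
  have e1 : star y ⬝ᵥ (HH (D : ℂ) *ᵥ y) = star (lift z) ⬝ᵥ (HH (D : ℂ) *ᵥ lift z) := by
    conv_rhs => rw [← h]
    rw [hy, Matrix.star_mulVec, ← Matrix.dotProduct_mulVec, Matrix.mulVec_mulVec,
      Matrix.mulVec_mulVec, Matrix.mul_assoc]
  have e2 : star y ⬝ᵥ (HH (D : ℂ) *ᵥ y) = ((‖y 0‖ ^ 2 + ‖y 1‖ ^ 2 : ℝ) : ℂ) := by
    simp only [dotProduct, HH, Matrix.mulVec_diagonal, Fin.sum_univ_three, Pi.star_apply]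
    rw [h0]
    push_cast
    rw [← Complex.conj_mul', ← Complex.conj_mul']
    simp
  have e3 : star (lift z) ⬝ᵥ (HH (D : ℂ) *ᵥ lift z) =
      ((‖z 0‖ ^ 2 + ‖z 1‖ ^ 2 - D : ℝ) : ℂ) := by
    simp only [dotProduct, HH, Matrix.mulVec_diagonal, Fin.sum_univ_three, Pi.star_apply, lift]
    push_cast
    rw [← Complex.conj_mul', ← Complex.conj_mul']
    simp
    ring
  rw [e2, e3] at e1
  have e4 : ‖y 0‖ ^ 2 + ‖y 1‖ ^ 2 = ‖z 0‖ ^ 2 + ‖z 1‖ ^ 2 - D := by exact_mod_cast e1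
  have hz' : ‖z 0‖ ^ 2 + ‖z 1‖ ^ 2 < D := hz
  have := sq_nonneg ‖y 0‖
  have := sq_nonneg ‖y 1‖
  linarith

theorem B2e_det_rank_one (D : ℂ) (a b : Fin 3 → ℂ) :
    (HH D + Matrix.of fun i j => a i * b j).det = -D * (1 + a 0 * b 0 + a 1 * b 1) + a 2 * b 2 := by
  rw [Matrix.det_fin_three]
  simp [HH]
  ring

/-- B2e: determinant of the automorphy matrix -/
theorem AA_det {D : ℝ} (hD : 0 < D) {gm gp : Matrix (Fin 3) (Fin 3) ℂ} (h : GU D gm gp) {z : Fin 2 → ℂ}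
    (hz : z ∈ Ball D) (B : Matrix (Fin 3) (Fin 3) ℂ) (hB : ∀ x, B *ᵥ x = AA D gm gp z x) :
    B.det = (gm *ᵥ lift z) 2 ^ 2 * nn D (mob gm z) / nn D z := by
  have hN := B2e_nn_ne hz
  have h2 := B2e_two_ne h.unit hz
  have hD' : (D : ℂ) ≠ 0 := by exact_mod_cast hD.ne'
  have hq : bil D (lift z) (lift z) = -nn D z := by
    simp [bil, lift, nn]; ring
  have hu : gmᵀ * HH (D : ℂ) * gp = HH (D : ℂ) := by
    have e := congrArg (fun M : Matrix (Fin 3) (Fin 3) ℂ => M.map (starRingEnd ℂ)) h.unit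
    simp only [Matrix.map_mul] at e
    have e1 : gmᴴ.map (starRingEnd ℂ) = gmᵀ := by
      ext i j; simp [Matrix.conjTranspose_apply]
    have e2 : (HH (D : ℂ)).map (starRingEnd ℂ) = HH (D : ℂ) := by
      ext i j
      fin_cases i <;> fin_cases j <;> simp [HH]
    rw [e1, e2, ← h.conj] at e
    exact e
  have hS : gmᵀ * HH (D : ℂ) * B = HH (D : ℂ) + Matrix.of fun i j =>
      (((gmᵀ * HH (D : ℂ) * gm - HH (D : ℂ)) *ᵥ lift z) i) *
        ((HH (D : ℂ) *ᵥ lift z) j / bil D (lift z) (lift z)) := by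
    ext i j
    have e1 : (gmᵀ * HH (D : ℂ) * B) *ᵥ (Pi.single j 1) =
        HH (D : ℂ) *ᵥ (Pi.single j 1) + ((bil D (Pi.single j 1) (lift z) / bil D (lift z) (lift z)) •
          ((gmᵀ * HH (D : ℂ) * gm - HH (D : ℂ)) *ᵥ lift z)) := by
      rw [← Matrix.mulVec_mulVec, hB, AA, PZ]
      rw [Matrix.mulVec_add, Matrix.mulVec_mulVec, Matrix.mulVec_mulVec, hu, Matrix.mulVec_sub,
        Matrix.mulVec_smul, Matrix.mulVec_smul, Matrix.sub_mulVec, smul_sub]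
      abel
    have e2 := congrFun e1 i
    rw [Matrix.mulVec_single_one] at e2
    simp only [Matrix.col_apply, Pi.add_apply, Pi.smul_apply, smul_eq_mul, Matrix.mulVec_single_one]
      at e2
    rw [e2]
    simp only [Matrix.add_apply, Matrix.of_apply]
    have e3 : bil D (Pi.single j 1) (lift z) = (HH (D : ℂ) *ᵥ lift z) j := by
      fin_cases j <;> simp [bil, HH, Matrix.mulVec_diagonal]
    rw [e3]
    ring
  have hdet := congrArg Matrix.det hS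
  rw [Matrix.det_mul, Matrix.det_mul, Matrix.det_transpose, h.det, B2e_det_rank_one] at hdet
  have hHd : (HH (D : ℂ)).det = -D := by
    simp [HH, Matrix.det_diagonal, Fin.prod_univ_three]
  rw [hHd, one_mul] at hdet
  set y := gm *ᵥ lift z with hy
  set a : Fin 3 → ℂ := (gmᵀ * HH (D : ℂ) * gm - HH (D : ℂ)) *ᵥ lift z with ha
  have hH : ∀ u : Fin 3 → ℂ, (HH (D : ℂ) *ᵥ u) ⬝ᵥ u = bil D u u := by
    intro u
    simp only [dotProduct, HH, Matrix.mulVec_diagonal, Fin.sum_univ_three, bil]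
    simp
    ring
  have hadot : a ⬝ᵥ lift z = bil D y y - bil D (lift z) (lift z) := by
    rw [ha, Matrix.sub_mulVec, sub_dotProduct, hH, ← hH y, Matrix.mul_assoc,
      ← Matrix.mulVec_mulVec, ← Matrix.mulVec_mulVec, Matrix.mulVec_transpose,
      ← Matrix.dotProduct_mulVec]
  have hadot' : a 0 * z 0 + a 1 * z 1 + a 2 = bil D y y - bil D (lift z) (lift z) := by
    rw [← hadot]
    simp [dotProduct, Fin.sum_univ_three, lift]
  have hb : HH (D : ℂ) *ᵥ lift z = ![z 0, z 1, -D] := by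
    ext j
    fin_cases j <;> simp [HH, Matrix.mulVec_diagonal, lift]
  rw [hb] at hdet
  simp only [Matrix.cons_val_zero, Matrix.cons_val_one, Matrix.cons_val] at hdet
  rw [hq] at hdet hadot'
  have hyy : bil D y y = -(y 2 ^ 2 * nn D (mob gm z)) := by
    unfold nn mob bil
    rw [← hy]
    simp only [Fin.castSucc_zero, Fin.castSucc_one]
    field_simp
    ring
  rw [eq_div_iff hN]
  have h5 : (-(D : ℂ)) * (B.det * nn D z) = (-(D : ℂ)) * (y 2 ^ 2 * nn D (mob gm z)) := by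
    have h6 : (-(D : ℂ)) * B.det * nn D z =
        (-(D : ℂ) * (1 + a 0 * (z 0 / -nn D z) + a 1 * (z 1 / -nn D z)) +
          a 2 * (-(D : ℂ) / -nn D z)) * nn D z := by
      rw [← hdet]
    have h7 : (-(D : ℂ) * (1 + a 0 * (z 0 / -nn D z) + a 1 * (z 1 / -nn D z)) +
          a 2 * (-(D : ℂ) / -nn D z)) * nn D z =
          -(D : ℂ) * (nn D z - (a 0 * z 0 + a 1 * z 1 + a 2)) := by
      field_simp
      ring
    rw [← mul_assoc, h6, h7, hadot', hyy]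
    ring
  exact mul_left_cancel₀ (neg_ne_zero.mpr hD') h5

end Pool.Agent.helper76.BQ
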